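import Pool.Agent.H97.SHL.Targets

set_option autoImplicit false

namespace Pool.Agent.H94.SHL

open Finset Pool.Agent.H97.SHL

namespace PH1

open Classical in
/-- the size of the intersection with a union of parts -/
lemma card_union {X K : Type} [DecidableEq X] (F : Finset (Finset X × K)) (P : Finset X)
    (hd : ∀ p ∈ F, ∀ p' ∈ F, p ≠ p' → Disjoint p.1 p'.1) :
    ((P ∩ F.biUnion Prod.fst).card : ℝ) = ∑ p ∈ F, ((P ∩ p.1).card : ℝ) := by
  have e : P ∩ F.biUnion Prod.fst = F.biUnion (fun p => P ∩ p.1) := by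
    ext x
    simp only [Finset.mem_inter, Finset.mem_biUnion]
    constructor
    · rintro ⟨h, p, hp, hx⟩
      exact ⟨p, hp, h, hx⟩
    · rintro ⟨p, hp, h, hx⟩
      exact ⟨h, p, hp, hx⟩
  rw [e, Finset.card_biUnion, Nat.cast_sum]
  intro p hp p' hp' hne
  exact (hd p hp p' hp' hne).mono Finset.inter_subset_right Finset.inter_subset_right

end PH1

open Classical in
theorem pf_PH1 (hSUM : T_SUM) : T_PH1 := by
  intro X K _ _ D U Y N T₀ 𝓛 Lf dc nar gd Fam hE P A' hA' hP hFam hcard
  have hU := hE.U1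
  have hY := hE.Y0
  have hUY : 0 ≤ U * Y := mul_nonneg (by linarith) hY
  -- each part
  have hpart : ∀ p ∈ dc A', 8 * ∑ x ∈ P ∩ p.1, D x ≤
      (8 * U * (if nar p ∧ gd p then ((P ∩ p.1).card : ℝ) else 0) +
        8 * U * (if ¬ nar p then ((P ∩ p.1).card : ℝ) else 0)) +
        ((P ∩ p.1).card : ℝ) + 8 * (U * Y) := by
    intro p hp
    have hc : (0 : ℝ) ≤ (P ∩ p.1).card := by positivity
    have hbd : ∑ x ∈ P ∩ p.1, D x ≤ U * (P ∩ p.1).card := by
      calc ∑ x ∈ P ∩ p.1, D x ≤ ∑ x ∈ P ∩ p.1, U := Finset.sum_le_sum fun x _ => hE.bnd x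
        _ = U * (P ∩ p.1).card := by rw [Finset.sum_const, nsmul_eq_mul, mul_comm]
    by_cases h1 : nar p
    · by_cases h2 : gd p
      · rw [if_pos ⟨h1, h2⟩, if_neg (not_not.mpr h1)]
        linarith
      · rw [if_neg (fun h => h2 h.2), if_neg (not_not.mpr h1)]
        have hs := (hSUM X K D U Y N T₀ 𝓛 Lf dc nar gd Fam hE (P ∩ p.1) (hFam p hp)).1
        have hg : gs dc nar gd (P ∩ p.1) = ∅ := by
          unfold gs
          rw [Finset.eq_empty_iff_forall_notMem]
          intro x hx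
          obtain ⟨q, hq, -⟩ := Finset.mem_biUnion.1 hx
          rw [Finset.mem_filter] at hq
          exact absurd hq.2.2 (hE.bad A' p hp h2 (P ∩ p.1) Finset.inter_subset_right q hq.1)
        rw [hg] at hs
        simp only [Finset.card_empty, Nat.cast_zero, mul_zero] at hs ⊢
        linarith
    · rw [if_neg (fun h => h1 h.1), if_pos h1]
      linarith
  have hsum := Finset.sum_le_sum hpart
  have hdis := hE.dis A'
  have e1 : ∑ p ∈ dc A', 8 * ∑ x ∈ P ∩ p.1, D x = 8 * ∑ x ∈ P, D x := by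
    rw [← Finset.mul_sum]
    congr 1
    have hPu : P = (dc A').biUnion (fun p => P ∩ p.1) := by
      ext x
      simp only [Finset.mem_biUnion, Finset.mem_inter]
      constructor
      · intro hx
        obtain ⟨p, hp, hxp⟩ := hE.cov A' x (hP hx)
        exact ⟨p, hp, hx, hxp⟩
      · rintro ⟨p, _, hx, _⟩
        exact hx
    conv_rhs => rw [hPu]
    rw [Finset.sum_biUnion]
    intro p hp p' hp' hne
    exact (hdis p hp p' hp' hne).mono Finset.inter_subset_right Finset.inter_subset_right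
  have e2 : ∑ p ∈ dc A', ((P ∩ p.1).card : ℝ) = P.card := by
    rw [← PH1.card_union (dc A') P hdis]
    congr 2
    ext x
    simp only [Finset.mem_inter, Finset.mem_biUnion]
    constructor
    · exact fun h => h.1
    · intro hx
      obtain ⟨p, hp, hxp⟩ := hE.cov A' x (hP hx)
      exact ⟨hx, p, hp, hxp⟩
  have e3 : ∑ p ∈ dc A', (if nar p ∧ gd p then ((P ∩ p.1).card : ℝ) else 0) =
      ((P ∩ gs dc nar gd A').card : ℝ) := by
    rw [← Finset.sum_filter]
    unfold gs
    rw [PH1.card_union _ P (fun p hp p' hp' hne => hdis p (Finset.mem_filter.1 hp).1 p'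
      (Finset.mem_filter.1 hp').1 hne)]
  have e4 : ∑ p ∈ dc A', (if ¬ nar p then ((P ∩ p.1).card : ℝ) else 0) =
      ((P ∩ ws dc nar A').card : ℝ) := by
    rw [← Finset.sum_filter]
    unfold ws
    rw [PH1.card_union _ P (fun p hp p' hp' hne => hdis p (Finset.mem_filter.1 hp).1 p'
      (Finset.mem_filter.1 hp').1 hne)]
  have e5 : ∑ _p ∈ dc A', 8 * (U * Y) ≤ N * (8 * (U * Y)) := by
    rw [Finset.sum_const, nsmul_eq_mul]
    exact mul_le_mul_of_nonneg_right (hE.num A') (by linarith)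
  rw [e1, Finset.sum_add_distrib, Finset.sum_add_distrib, Finset.sum_add_distrib,
    ← Finset.mul_sum, ← Finset.mul_sum, e2, e3, e4] at hsum
  have e6 : 8 * U * (((P ∩ gs dc nar gd A').card : ℝ) + (P ∩ ws dc nar A').card + N * Y) =
      8 * U * ((P ∩ gs dc nar gd A').card : ℝ) + 8 * U * ((P ∩ ws dc nar A').card : ℝ) +
        N * (8 * (U * Y)) := by ring
  rw [e6]
  linarith

end Pool.Agent.H94.SHL
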